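import Mathlib
import Pool.Agent.H16.LRC2

set_option autoImplicit false

namespace Pool.Agent.Results.MP_05b2f7_lc.LeftOnly

/-- Every language of a finite type-0 grammar is generated by a left random context grammar. -/
theorem result :
    ∀ (T N : Type), Finite T → Finite N → ∀ (S : N)
      (P : Finset (List (Symbol T N) × List (Symbol T N))),
      (∀ r ∈ P, ∃ A : N, Symbol.nonterminal A ∈ r.1) →
    ∃ (N' : Type), Finite N' ∧ ∃ (S' : N')
      (PL : Finset (N' × List (Symbol T N') × Finset N' × Finset N')),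
      ∀ w : List T,
        (Relation.ReflTransGen
          (fun (α β : List (Symbol T N)) =>
            ∃ (u v : List (Symbol T N)), ∃ r ∈ P, α = u ++ r.1 ++ v ∧ β = u ++ r.2 ++ v)
          [Symbol.nonterminal S] (w.map Symbol.terminal)
        ↔
        Relation.ReflTransGen
          (fun (α β : List (Symbol T N')) =>
            ∃ (u v : List (Symbol T N')) (A : N') (x : List (Symbol T N')) (U W : Finset N'),
              α = u ++ [Symbol.nonterminal A] ++ v ∧ β = u ++ x ++ v ∧ (A, x, U, W) ∈ PL ∧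
              (∀ B ∈ U, Symbol.nonterminal B ∈ u) ∧ (∀ B ∈ W, Symbol.nonterminal B ∉ u))
          [Symbol.nonterminal S'] (w.map Symbol.terminal)) := by
  intro T N hT hN S P hP
  obtain ⟨N', h1, S', P', h⟩ := Pool.Agent.H16.LRC.gen_left (T := T) (N := N)
    (P := (fun r : List (Symbol T N) × List (Symbol T N) => (r.1, r.2, (∅, ∅), (∅, ∅))) '' (↑P)) (P.finite_toSet.image _)
    (by
      rintro _ ⟨r, hr, rfl⟩ e
      obtain ⟨A, hA⟩ := hP r hr
      simp only at e
      simp [e] at hA) [Symbol.nonterminal S]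
  refine ⟨N', h1, S', P', fun w => ?_⟩
  refine Iff.trans (iff_of_eq ?_) (h w)
  congr 1
  funext α β
  apply propext
  constructor
  · rintro ⟨u, v, r, h2, e1, e2⟩
    exact ⟨u, v, _, ⟨_, h2, rfl⟩, e1, e2, ⟨by simp, by simp⟩, by simp, by simp⟩
  · rintro ⟨u, v, _, ⟨r, h2, rfl⟩, e1, e2, _⟩
    exact ⟨u, v, r, h2, e1, e2⟩

end Pool.Agent.Results.MP_05b2f7_lc.LeftOnly
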